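import Pool.Agent.R706.QR.Main

/-!
# MP_6980f8_al

For every `n`, every nilpotent quaternionic `n × n` matrix `A` and every positive integer `p`, the
set of `p`-th roots of `A` is path connected (or empty).
-/

noncomputable section

namespace Pool.Agent.Results.MP_6980f8_al.RootsPathConnected

open Quaternion Pool.Agent.R706.QR

/-- the action of a matrix on row vectors -/
def toEnd {n : ℕ} (M : Matrix (Fin n) (Fin n) ℍ[ℝ]) : Module.End D (Fin n → D) where
  toFun v := Matrix.vecMul v M
  map_add' v w := Matrix.add_vecMul M v w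
  map_smul' c v := by
    rw [Matrix.smul_vecMul]
    rfl

/-- the matrix of an endomorphism of the space of row vectors -/
def toMat {n : ℕ} (T : Module.End D (Fin n → D)) : Matrix (Fin n) (Fin n) ℍ[ℝ] :=
  fun i j => T (Pi.single i 1) j

theorem toMat_toEnd {n : ℕ} (M : Matrix (Fin n) (Fin n) ℍ[ℝ]) : toMat (toEnd M) = M := by
  funext i j
  change Matrix.vecMul (Pi.single i 1) M j = M i j
  rw [Matrix.single_one_vecMul]
  rfl

theorem toEnd_toMat {n : ℕ} (T : Module.End D (Fin n → D)) : toEnd (toMat T) = T := by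
  apply LinearMap.ext
  intro v
  have h1 : v = ∑ i, v i • (Pi.single i 1 : Fin n → D) := by
    funext j
    rw [Finset.sum_apply, Finset.sum_eq_single j]
    · simp
    · intro i _ hij
      simp [hij.symm]
    · simp
  funext j
  conv_rhs => rw [h1]
  rw [map_sum, Finset.sum_apply]
  change ∑ i, v i * toMat T i j = _
  refine Finset.sum_congr rfl fun i _ => ?_
  rw [map_smul]
  rfl

theorem toEnd_pow {n : ℕ} (M : Matrix (Fin n) (Fin n) ℍ[ℝ]) (k : ℕ) :
    (toEnd M) ^ k = toEnd (M ^ k) := by
  induction k with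
  | zero =>
    apply LinearMap.ext
    intro v
    change v = Matrix.vecMul v (M ^ 0)
    rw [pow_zero, Matrix.vecMul_one]
  | succ k ih =>
    rw [pow_succ, ih, pow_succ']
    apply LinearMap.ext
    intro v
    change Matrix.vecMul (Matrix.vecMul v M) (M ^ k) = Matrix.vecMul v (M * M ^ k)
    rw [Matrix.vecMul_vecMul]

theorem toMat_pow {n : ℕ} (T : Module.End D (Fin n → D)) (k : ℕ) :
    (toMat T) ^ k = toMat (T ^ k) := by
  rw [← toMat_toEnd ((toMat T) ^ k), ← toEnd_pow, toEnd_toMat]

theorem joined_of_P1 {n p : ℕ} {A X Y : Module.End D (Fin n → D)} (h : P1 p A X Y) :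
    JoinedIn {Z : Matrix (Fin n) (Fin n) ℍ[ℝ] | Z ^ p = toMat A} (toMat X) (toMat Y) := by
  obtain ⟨γ, h1, h2, h3, h4⟩ := h
  refine JoinedIn.ofLine (f := fun s => toMat (γ s)) ?_ (by simp [h2]) (by simp [h3]) ?_
  · apply Continuous.continuousOn
    refine continuous_pi fun i => continuous_pi fun j => ?_
    exact h1 (Pi.single i 1) (LinearMap.proj j)
  · rintro _ ⟨s, _, rfl⟩
    change (toMat (γ s)) ^ p = toMat A
    rw [toMat_pow, h4]

/-- The set of `p`-th roots of a nilpotent quaternionic matrix is path connected, if nonempty. -/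
theorem result (n : ℕ) (A : Matrix (Fin n) (Fin n) ℍ[ℝ]) (hA : IsNilpotent A) (p : ℕ)
    (hp : 0 < p) (hne : {X : Matrix (Fin n) (Fin n) ℍ[ℝ] | X ^ p = A}.Nonempty) :
    IsPathConnected {X : Matrix (Fin n) (Fin n) ℍ[ℝ] | X ^ p = A} := by
  rw [isPathConnected_iff]
  refine ⟨hne, fun X hX Y hY => ?_⟩
  have hX' : X ^ p = A := hX
  have hY' : Y ^ p = A := hY
  have hnil : IsNilpotent (toEnd X) := by
    obtain ⟨k, hk⟩ := hA
    refine ⟨p * k, ?_⟩
    rw [toEnd_pow, pow_mul, hX', hk]
    apply LinearMap.ext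
    intro v
    change Matrix.vecMul v 0 = 0
    rw [Matrix.vecMul_zero]
  have hconn := main_conn _ (Fin n → D) (toEnd X) (toEnd Y) p hp rfl hnil
    (by rw [toEnd_pow, toEnd_pow, hX', hY'])
  rw [toEnd_pow, hX'] at hconn
  have key : ∀ T T' : Module.End D (Fin n → D), Conn p (toEnd A) T T' →
      T ^ p = toEnd A →
      JoinedIn {Z : Matrix (Fin n) (Fin n) ℍ[ℝ] | Z ^ p = A} (toMat T) (toMat T') := by
    intro T T' h hT
    induction h with
    | refl =>
      apply JoinedIn.refl
      change (toMat T) ^ p = A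
      rw [toMat_pow, hT, toMat_toEnd]
    | tail _ h2 ih =>
      refine ih.trans ?_
      have := joined_of_P1 h2
      rwa [toMat_toEnd] at this
  have := key _ _ hconn (by rw [toEnd_pow, hX'])
  rwa [toMat_toEnd, toMat_toEnd] at this

end Pool.Agent.Results.MP_6980f8_al.RootsPathConnected
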